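import Pool.Agent.Helper57.IIC.MMG

set_option autoImplicit false

namespace IIC

open Filter Topology Set
open scoped BigOperators

/-- the reflection `y i ↦ c - y i` -/
def MM1_f {d : ℕ} (i : Fin d) (c : ℤ) (y : Fin d → ℤ) : Fin d → ℤ :=
  Function.update y i (c - y i)

theorem MM1_ff {d : ℕ} (i : Fin d) (c : ℤ) (y : Fin d → ℤ) : MM1_f i c (MM1_f i c y) = y := by
  funext k
  unfold MM1_f
  by_cases h : k = i
  · subst h; simp
  · simp [Function.update_of_ne h]

theorem MM1_same {d : ℕ} (i : Fin d) (c : ℤ) (y : Fin d → ℤ) : MM1_f i c y i = c - y i := by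
  simp [MM1_f]

theorem MM1_ne {d : ℕ} (i : Fin d) (c : ℤ) (y : Fin d → ℤ) (k : Fin d) (h : k ≠ i) :
    MM1_f i c y k = y k := by
  simp [MM1_f, Function.update_of_ne h]

theorem MM1_adj {d : ℕ} (i : Fin d) (c : ℤ) (a b : Fin d → ℤ) :
    (lat d).Adj (MM1_f i c a) (MM1_f i c b) ↔ (lat d).Adj a b := by
  have : ∑ k, |MM1_f i c a k - MM1_f i c b k| = ∑ k, |a k - b k| := by
    refine Finset.sum_congr rfl ?_
    intro k _
    by_cases h : k = i
    · subst h
      rw [MM1_same, MM1_same, abs_sub_comm]
      congr 1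
      ring
    · rw [MM1_ne i c a k h, MM1_ne i c b k h]
  show (∑ k, |MM1_f i c a k - MM1_f i c b k| = 1) ↔ ∑ k, |a k - b k| = 1
  rw [this]

def MM1_g {d : ℕ} (i : Fin d) (c : ℤ) : lat d ≃g lat d where
  toFun := MM1_f i c
  invFun := MM1_f i c
  left_inv := MM1_ff i c
  right_inv := MM1_ff i c
  map_rel_iff' := by
    intro a b
    exact MM1_adj i c a b

theorem MM1_gf {d : ℕ} (i : Fin d) (c : ℤ) (y : Fin d → ℤ) : MM1_g i c y = MM1_f i c y := rfl

theorem MM1_nrm {d : ℕ} (n : ℕ) (y : Fin d → ℤ) (h : nrm y ≤ n) (k : Fin d) :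
    -(n : ℤ) ≤ y k ∧ y k ≤ n := by
  have h1 : (y k).natAbs ≤ nrm y :=
    Finset.le_sup (f := fun i => (y i).natAbs) (Finset.mem_univ k)
  omega

theorem MM1_main (hMMSA : ST_MMSA) (hBR : ST_BR) (hLATC : ST_LATC) (hLIM : ST_LIM)
    (hUPS : ST_UPS) (d : ℕ) (hd : 2 ≤ d) (β : ℝ) (hβ : 0 ≤ β) (i : Fin d) (x : Fin d → ℤ)
    (hx : 1 ≤ x i) : S2 β x ≤ S2 β (x - Pi.single i 1) := by
  have hgx : MM1_g i (2 * x i - 1) (x - Pi.single i 1) = x := by
    funext k
    rw [MM1_gf]
    by_cases h : k = i
    · subst h
      rw [MM1_same]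
      simp only [Pi.sub_apply, Pi.single_eq_same]
      ring
    · rw [MM1_ne _ _ _ k h]
      simp [Pi.single_eq_of_ne h]
  have key := MMG_main hMMSA hBR hLATC hLIM hUPS hd β hβ (MM1_g i (2 * x i - 1))
    (fun y => MM1_ff _ _ y) {y | y i ≤ x i - 1}
    (by
      intro y
      rw [Set.mem_ofPred_eq, Set.mem_ofPred_eq, MM1_gf, MM1_same]
      omega)
    (by
      intro y h1 h2
      rw [Set.mem_ofPred_eq] at h1
      rw [Set.mem_ofPred_eq, MM1_gf, MM1_same] at h2
      omega)
    (by
      intro a b hab
      have hab1 : ∑ k, |a k - b k| = 1 := hab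
      have hi1 : |a i - b i| ≤ 1 := by
        rw [← hab1]
        exact Finset.single_le_sum (f := fun k => |a k - b k|) (fun k _ => abs_nonneg _)
          (Finset.mem_univ i)
      have hi2 := abs_le.1 hi1
      simp only [Set.mem_ofPred_eq, MM1_gf, MM1_same]
      by_cases h1 : a i ≤ x i - 1 ∧ b i ≤ x i - 1
      · exact Or.inl h1
      by_cases h2 : x i ≤ a i ∧ x i ≤ b i
      · right; left; omega
      · right; right
        have hrest : ∀ k, k ≠ i → a k = b k := by
          intro k hk
          have h4 : |a i - b i| + |a k - b k| ≤ 1 := by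
            rw [← hab1, ← Finset.add_sum_erase _ _ (Finset.mem_univ i)]
            gcongr
            exact Finset.single_le_sum (f := fun k => |a k - b k|) (fun k _ => abs_nonneg _)
              (Finset.mem_erase.2 ⟨hk, Finset.mem_univ k⟩)
          have h5 : 1 ≤ |a i - b i| := by
            apply Int.one_le_abs
            omega
          have h6 : |a k - b k| = 0 := le_antisymm (by omega) (abs_nonneg _)
          rw [abs_eq_zero] at h6
          omega
        funext k
        by_cases hk : k = i
        · subst hk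
          rw [MM1_same]
          omega
        · rw [MM1_ne _ _ _ k hk, hrest k hk])
    (by
      intro n
      refine ⟨fun k => if k = i then -(n : ℤ) - 1 else -(n : ℤ),
        fun k => if k = i then n + 2 * x i else n, ?_, ?_⟩
      · intro y hy
        rw [Finset.mem_Icc, Pi.le_def, Pi.le_def]
        constructor
        · intro k
          have := MM1_nrm n y hy k
          show (if k = i then -(n : ℤ) - 1 else -(n : ℤ)) ≤ y k
          split_ifs <;> omega
        · intro k
          have := MM1_nrm n y hy k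
          show y k ≤ (if k = i then n + 2 * x i else n)
          split_ifs <;> omega
      · intro y hy
        rw [Finset.mem_Icc, Pi.le_def, Pi.le_def] at hy ⊢
        have hy1 : ∀ k, (if k = i then -(n : ℤ) - 1 else -(n : ℤ)) ≤ y k := hy.1
        have hy2 : ∀ k, y k ≤ (if k = i then n + 2 * x i else n) := hy.2
        constructor
        · intro k
          show (if k = i then -(n : ℤ) - 1 else -(n : ℤ)) ≤ MM1_f i (2 * x i - 1) y k
          have h1 := hy1 k
          have h2 := hy2 k
          by_cases hk : k = i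
          · subst hk
            rw [if_pos rfl] at h1 h2 ⊢
            rw [MM1_same]
            omega
          · rw [if_neg hk] at h1 h2 ⊢
            rw [MM1_ne _ _ _ k hk]
            exact h1
        · intro k
          show MM1_f i (2 * x i - 1) y k ≤ (if k = i then n + 2 * x i else n)
          have h1 := hy1 k
          have h2 := hy2 k
          by_cases hk : k = i
          · subst hk
            rw [if_pos rfl] at h1 h2 ⊢
            rw [MM1_same]
            omega
          · rw [if_neg hk] at h1 h2 ⊢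
            rw [MM1_ne _ _ _ k hk]
            exact h2)
    0 (x - Pi.single i 1)
    (by rw [Set.mem_ofPred_eq, Pi.zero_apply]; omega)
    (by rw [Set.mem_ofPred_eq, Pi.sub_apply, Pi.single_eq_same])
  rw [hgx] at key
  exact key

theorem st_MM1 (hMMSA : ST_MMSA) (hBR : ST_BR) (hLATC : ST_LATC) (hLIM : ST_LIM)
    (hUPS : ST_UPS) : ST_MM1 :=
  fun d hd β hβ i x hx => MM1_main hMMSA hBR hLATC hLIM hUPS d hd β hβ i x hx

end IIC
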