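import Pool.Agent.Helper20.IIC.Stmts

set_option autoImplicit false

namespace IIC

open Filter Topology Set
open scoped BigOperators

/-- the edges touching a finite set are finitely many -/
theorem MMG_fin {d : ℕ} (B : Finset (Fin d → ℤ)) : {e : Ed d | ∃ v ∈ le e, v ∈ B}.Finite := by
  classical
  have h1 : (⋃ v ∈ (B : Set (Fin d → ℤ)), (fun w => s(v, w)) '' (Finset.Icc (v - 1) (v + 1) :
      Set (Fin d → ℤ))).Finite := by
    refine Set.Finite.biUnion B.finite_toSet ?_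
    intro v _
    exact (Finset.finite_toSet _).image _
  refine Set.Finite.subset (h1.preimage (f := fun e : Ed d => e.1)
    (Subtype.val_injective.injOn)) ?_
  intro e he
  obtain ⟨v, hv, hvB⟩ := he
  obtain ⟨w, hw⟩ := hv
  have hadj : (lat d).Adj v w := by
    have := e.2
    have h2 : e.1 = s(v, w) := hw
    rw [h2, SimpleGraph.mem_edgeSet] at this
    exact this
  have hk : ∀ k, |v k - w k| ≤ 1 := by
    intro k
    have h3 : ∑ i, |v i - w i| = 1 := hadj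
    have h4 := Finset.single_le_sum (f := fun i => |v i - w i|) (fun i _ => abs_nonneg _)
      (Finset.mem_univ k)
    exact h4.trans h3.le
  rw [Set.mem_preimage, Set.mem_iUnion₂]
  refine ⟨v, hvB, w, ?_, hw.symm⟩
  rw [Finset.coe_Icc, Set.mem_Icc]
  constructor
  · intro k
    have := abs_le.1 (hk k)
    simp only [Pi.sub_apply, Pi.one_apply]
    omega
  · intro k
    have := abs_le.1 (hk k)
    simp only [Pi.add_apply, Pi.one_apply]
    omega

/-- a step off `Λ` identifies the classes -/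
theorem MMG_qm {d : ℕ} (Λ : Finset (Ed d)) (a b : Fin d → ℤ)
    (h : Conn le ((Λ : Set (Ed d))ᶜ) a b) : qm Λ a = qm Λ b := by
  induction h with
  | refl => rfl
  | tail _ h2 ih => rw [ih]; exact Quot.sound h2

theorem MMG_op {d : ℕ} (Λ : Finset (Ed d)) : op (exw Λ ∅) = ((Λ : Set (Ed d))ᶜ) := by
  classical
  ext e
  by_cases h : e ∈ Λ
  · simp [op, exw, ext, h]
  · simp [op, exw, ext, h]

theorem MMG_ray {d : ℕ} (l u : Fin d → ℤ) (Λ : Finset (Ed d))
    (hΛ : ∀ e : Ed d, e ∈ Λ → ∃ v ∈ le e, v ∈ Finset.Icc l u) (y : Fin d → ℤ)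
    (hy : y ∉ Finset.Icc l u) (n : ℕ) :
    ∃ z, n ≤ nrm z ∧ Conn le ((Λ : Set (Ed d))ᶜ) y z := by
  classical
  have hex : ∃ (k : Fin d) (s : ℤ), |s| = 1 ∧ ∀ t : ℕ,
      y + (t : ℤ) • Pi.single k s ∉ Finset.Icc l u := by
    rw [Finset.mem_Icc, not_and_or, Pi.le_def, Pi.le_def, not_forall, not_forall] at hy
    rcases hy with ⟨k, hk⟩ | ⟨k, hk⟩
    · refine ⟨k, -1, by norm_num, ?_⟩
      intro t ht
      rw [Finset.mem_Icc] at ht
      have := ht.1 k
      simp only [Pi.add_apply, Pi.smul_apply, Pi.single_eq_same, smul_eq_mul] at this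
      omega
    · refine ⟨k, 1, by norm_num, ?_⟩
      intro t ht
      rw [Finset.mem_Icc] at ht
      have := ht.2 k
      simp only [Pi.add_apply, Pi.smul_apply, Pi.single_eq_same, smul_eq_mul] at this
      omega
  obtain ⟨k, s, hs, hout⟩ := hex
  have hstep : ∀ t : ℕ, Conn le ((Λ : Set (Ed d))ᶜ) y (y + (t : ℤ) • Pi.single k s) := by
    intro t
    induction t with
    | zero => simp only [Nat.cast_zero, zero_smul, add_zero]; exact Relation.ReflTransGen.refl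
    | succ t ih =>
      refine ih.tail ?_
      have hadj : (lat d).Adj (y + (t : ℤ) • Pi.single k s)
          (y + ((t + 1 : ℕ) : ℤ) • Pi.single k s) := by
        show ∑ i, |_| = 1
        rw [Finset.sum_eq_single k]
        · simp only [Pi.add_apply, Pi.smul_apply, Pi.single_eq_same, smul_eq_mul]
          rw [← hs, ← abs_neg s]
          congr 1
          push_cast
          ring
        · intro i _ hi
          simp [Pi.single_eq_of_ne hi]
        · intro h; exact absurd (Finset.mem_univ k) h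
      refine ⟨⟨s(_, _), (SimpleGraph.mem_edgeSet (lat d)).2 hadj⟩, ?_, rfl⟩
      intro he
      obtain ⟨v, hv, hvB⟩ := hΛ _ he
      rcases Sym2.mem_iff.1 hv with h | h
      · exact hout t (h ▸ hvB)
      · exact hout (t + 1) (h ▸ hvB)
  refine ⟨y + ((n + (y k).natAbs : ℕ) : ℤ) • Pi.single k s, ?_, hstep _⟩
  unfold nrm
  refine le_trans ?_ (Finset.le_sup (f := fun i => (((y + ((n + (y k).natAbs : ℕ) : ℤ) •
    Pi.single k s) : Fin d → ℤ) i).natAbs) (Finset.mem_univ k))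
  simp only [Pi.add_apply, Pi.smul_apply, Pi.single_eq_same, smul_eq_mul]
  rcases (abs_eq (by norm_num : (0 : ℤ) ≤ 1)).1 hs with h | h
  · rw [h]; omega
  · rw [h]; omega

/-- the points outside the box form one class -/
theorem MMG_out (hLATC : ST_LATC) {d : ℕ} (hd : 2 ≤ d) (l u : Fin d → ℤ) (Λ : Finset (Ed d))
    (hΛ : ∀ e : Ed d, e ∈ Λ → ∃ v ∈ le e, v ∈ Finset.Icc l u) (y z : Fin d → ℤ)
    (hy : y ∉ Finset.Icc l u) (hz : z ∉ Finset.Icc l u) : qm Λ y = qm Λ z := by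
  obtain ⟨n, hn⟩ := (hLATC d hd).2.1 Λ ∅
  obtain ⟨y', hy', hyc⟩ := MMG_ray l u Λ hΛ y hy n
  obtain ⟨z', hz', hzc⟩ := MMG_ray l u Λ hΛ z hz n
  have h := hn y' z' hy' hz'
  unfold LConn at h
  rw [MMG_op] at h
  rw [MMG_qm Λ _ _ hyc, MMG_qm Λ _ _ hzc, MMG_qm Λ _ _ h]

/-- the points of the box are singletons -/
theorem MMG_in {d : ℕ} (l u : Fin d → ℤ) (Λ : Finset (Ed d))
    (hΛ : ∀ e : Ed d, (∃ v ∈ le e, v ∈ Finset.Icc l u) → e ∈ Λ) (y z : Fin d → ℤ)
    (hy : y ∈ Finset.Icc l u) (h : qm Λ y = qm Λ z) : y = z := by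
  classical
  let f : (Fin d → ℤ) → Option (Fin d → ℤ) := fun w => if w ∈ Finset.Icc l u then some w else none
  have hf : ∀ a b, Step le ((Λ : Set (Ed d))ᶜ) a b → f a = f b := by
    rintro a b ⟨e, he, hab⟩
    have ha : a ∉ Finset.Icc l u := by
      intro ha
      exact he (hΛ e ⟨a, by rw [hab]; exact Sym2.mem_mk_left a b, ha⟩)
    have hb : b ∉ Finset.Icc l u := by
      intro hb
      exact he (hΛ e ⟨b, by rw [hab]; exact Sym2.mem_mk_right a b, hb⟩)
    simp only [f, if_neg ha, if_neg hb]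
  have h2 : Quot.lift f hf (qm Λ y) = Quot.lift f hf (qm Λ z) := by rw [h]
  have h3 : f y = f z := h2
  simp only [f, if_pos hy] at h3
  by_cases hz : z ∈ Finset.Icc l u
  · rw [if_pos hz] at h3; exact Option.some.inj h3
  · rw [if_neg hz] at h3; exact absurd h3 (by simp)

theorem MMG_le {d : ℕ} (g : lat d ≃g lat d) (e : Ed d) :
    le (g.mapEdgeSet e) = Sym2.map g (le e) := rfl

/-- the inequality in a finite volume which is symmetric -/
theorem MMG_vol (hMMSA : ST_MMSA) (hBR : ST_BR) (hLATC : ST_LATC) {d : ℕ} (hd : 2 ≤ d) (β : ℝ)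
    (hβ : 0 ≤ β) (g : lat d ≃g lat d) (hg : ∀ y, g (g y) = y) (P : Set (Fin d → ℤ))
    (h1 : ∀ y, y ∈ P ∨ g y ∈ P) (h2 : ∀ y ∈ P, g y ∈ P → g y = y)
    (h3 : ∀ a b, (lat d).Adj a b → (a ∈ P ∧ b ∈ P) ∨ (g a ∈ P ∧ g b ∈ P) ∨ b = g a)
    (l u : Fin d → ℤ) (hB : ∀ y ∈ Finset.Icc l u, g y ∈ Finset.Icc l u) (Λ : Finset (Ed d))
    (hΛ : ∀ e : Ed d, e ∈ Λ ↔ ∃ v ∈ le e, v ∈ Finset.Icc l u) (x y : Fin d → ℤ) (hx : x ∈ P)
    (hy : y ∈ P) : PW β Λ (CN x (g y)) ≤ PW β Λ (CN x y) := by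
  classical
  obtain ⟨hfin, hconn, hPW⟩ := hBR d Λ
  have : Finite (QV Λ) := hfin
  have : Fintype (QV Λ) := Fintype.ofFinite _
  have hgΛ : ∀ e : Ed d, e ∈ Λ → g.mapEdgeSet e ∈ Λ := by
    intro e he
    obtain ⟨v, hv, hvB⟩ := (hΛ e).1 he
    rw [hΛ]
    exact ⟨g v, by rw [MMG_le]; exact Sym2.mem_map.2 ⟨v, hv, rfl⟩, hB v hvB⟩
  have hgg : ∀ e : Ed d, g.mapEdgeSet (g.mapEdgeSet e) = e := by
    intro e
    apply Subtype.ext
    show le _ = le _
    rw [MMG_le, MMG_le, Sym2.map_map]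
    have : (⇑g ∘ ⇑g) = id := by funext y; exact hg y
    rw [this, Sym2.map_id]
    rfl
  have hgstep : ∀ a b, Step le ((Λ : Set (Ed d))ᶜ) a b →
      Step le ((Λ : Set (Ed d))ᶜ) (g a) (g b) := by
    rintro a b ⟨e, he, hab⟩
    refine ⟨g.mapEdgeSet e, ?_, by rw [MMG_le, hab]; rfl⟩
    intro h
    apply he
    have := hgΛ _ h
    rwa [hgg] at this
  let θ : QV Λ → QV Λ := Quot.map g hgstep
  have hθ : ∀ y, θ (qm Λ y) = qm Λ (g y) := fun y => rfl
  let θE : {e // e ∈ Λ} → {e // e ∈ Λ} := fun e => ⟨g.mapEdgeSet e.1, hgΛ _ e.2⟩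
  let PQ : Set (QV Λ) := {q | ∃ y ∈ P, qm Λ y = q}
  have key := hMMSA (QV Λ) {e // e ∈ Λ} (qe Λ) β θ θE PQ hβ
    (by
      intro v
      induction v using Quot.ind with
      | mk y => show θ (θ (qm Λ y)) = qm Λ y; rw [hθ, hθ, hg])
    (by intro e; apply Subtype.ext; exact hgg e.1)
    (by
      intro e
      show Sym2.map (qm Λ) (le (g.mapEdgeSet e.1)) = Sym2.map θ (Sym2.map (qm Λ) (le e.1))
      rw [MMG_le, Sym2.map_map, Sym2.map_map]
      rfl)
    (by
      intro v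
      induction v using Quot.ind with
      | mk y =>
        rcases h1 y with h | h
        · exact Or.inl ⟨y, h, rfl⟩
        · exact Or.inr ⟨g y, h, rfl⟩)
    (by
      rintro v ⟨y, hyP, rfl⟩ ⟨z, hzP, hz⟩
      rw [hθ] at hz ⊢
      by_cases hyB : y ∈ Finset.Icc l u
      · have := MMG_in l u Λ (fun e => (hΛ e).2) (g y) z (hB y hyB) hz.symm
        subst this
        rw [h2 y hyP hzP]
      · refine MMG_out hLATC hd l u Λ (fun e => (hΛ e).1) _ _ ?_ hyB
        intro h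
        apply hyB
        have := hB _ h
        rwa [hg] at this)
    (by
      intro e
      obtain ⟨⟨e0, he0⟩, heΛ⟩ := e
      induction e0 using Sym2.ind with
      | _ a b =>
        have hadj : (lat d).Adj a b := he0
        have he : qe Λ ⟨⟨s(a, b), he0⟩, heΛ⟩ = s(qm Λ a, qm Λ b) := rfl
        rcases h3 a b hadj with ⟨ha, hb⟩ | ⟨ha, hb⟩ | h
        · left
          intro v hv
          rw [he, Sym2.mem_iff] at hv
          rcases hv with rfl | rfl
          · exact ⟨a, ha, rfl⟩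
          · exact ⟨b, hb, rfl⟩
        · right; left
          intro v hv
          rw [he, Sym2.mem_iff] at hv
          rcases hv with rfl | rfl
          · exact ⟨g a, ha, rfl⟩
          · exact ⟨g b, hb, rfl⟩
        · right; right
          refine ⟨qm Λ a, ?_⟩
          rw [he, hθ, h])
    (qm Λ x) ⟨x, hx, rfl⟩ (qm Λ y) ⟨y, hy, rfl⟩
  have hev : ∀ z, {T : Finset {e // e ∈ Λ} | exw Λ (qs T) ∈ CN x z} =
      cn (qe Λ) (qm Λ x) (qm Λ z) := by
    intro z
    ext T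
    exact (hconn T x z).symm
  rw [hPW β (CN x (g y)), hPW β (CN x y), hev, hev]
  exact key

/-- the inequality in infinite volume -/
theorem MMG_main (hMMSA : ST_MMSA) (hBR : ST_BR) (hLATC : ST_LATC) (hLIM : ST_LIM)
    (hUPS : ST_UPS) {d : ℕ} (hd : 2 ≤ d) (β : ℝ)
    (hβ : 0 ≤ β) (g : lat d ≃g lat d) (hg : ∀ y, g (g y) = y) (P : Set (Fin d → ℤ))
    (h1 : ∀ y, y ∈ P ∨ g y ∈ P) (h2 : ∀ y ∈ P, g y ∈ P → g y = y)
    (h3 : ∀ a b, (lat d).Adj a b → (a ∈ P ∧ b ∈ P) ∨ (g a ∈ P ∧ g b ∈ P) ∨ b = g a)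
    (hbox : ∀ n : ℕ, ∃ l u : Fin d → ℤ, (∀ y, nrm y ≤ n → y ∈ Finset.Icc l u) ∧
      ∀ y ∈ Finset.Icc l u, g y ∈ Finset.Icc l u)
    (x y : Fin d → ℤ) (hx : x ∈ P) (hy : y ∈ P) : mW β (CN x (g y)) ≤ mW β (CN x y) := by
  classical
  have hup1 := (hUPS d x (g y) ∅).1
  have hup2 := (hUPS d x y ∅).1
  obtain ⟨hT, _, _, _⟩ := (hLIM d β hβ).1 _ hup2
  obtain ⟨_, _, _, hle⟩ := (hLIM d β hβ).1 _ hup1
  refine ge_of_tendsto_of_frequently hT ?_
  rw [Filter.frequently_atTop]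
  intro Λ₀
  obtain ⟨l, u, hlu, hB⟩ := hbox (Λ₀.sup (fun e => nrm (Quot.out e.1).1))
  refine ⟨(MMG_fin (Finset.Icc l u)).toFinset, ?_, ?_⟩
  · intro e he
    rw [Set.Finite.mem_toFinset]
    refine ⟨(Quot.out e.1).1, ?_, ?_⟩
    · exact Sym2.out_fst_mem e.1
    · exact hlu _ (Finset.le_sup (f := fun e : Ed d => nrm (Quot.out e.1).1) he)
  · refine le_trans (hle (MMG_fin (Finset.Icc l u)).toFinset) ?_
    exact MMG_vol hMMSA hBR hLATC hd β hβ g hg P h1 h2 h3 l u hB _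
      (fun e => by rw [Set.Finite.mem_toFinset]; rfl) x y hx hy

end IIC
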